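import Pool.Agent.TH833.SP.Gen

set_option autoImplicit false

/-!
# Sums and products when there is no bounded obstruction to the sums

Let `c` be a finite colouring.  If for every `K` there is an `x > K` such that `c (m x) = c y`
implies `c (m x + y) = c y` for all `m, y ≤ K`, then `x, y, x + y, x y` is monochromatic for some
arbitrarily large `x, y`.  The good `x` define a closed left ideal of the semigroup of
ultrafilters with multiplication, and an idempotent in it gives the pattern.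
-/

open Filter Topology

namespace Pool.Agent.TH832.SP

attribute [local instance] Ultrafilter.semigroup Ultrafilter.addSemigroup

open Pool.Agent.TH833.SP

section

variable {κ : Type*}

/-- `x` has no obstruction at level `K` -/
def Good (c : ℕ → κ) (M S : Set ℕ) (L K x : ℕ) : Prop :=
  x ∈ S ∧ K < x ∧ ∀ m ∈ M, m ≤ K → ∀ y ∈ S, L < y → y ≤ K →
    c (m * x) = c y → c (m * x + y) = c y

theorem Good.mono {c : ℕ → κ} {M S : Set ℕ} {L K K' x : ℕ} (h : Good c M S L K' x)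
    (hK : K ≤ K') : Good c M S L K x :=
  ⟨h.1, lt_of_le_of_lt hK h.2.1, fun m hm hmK y hy hLy hyK =>
    h.2.2 m hm (hmK.trans hK) y hy hLy (hyK.trans hK)⟩

theorem Good.mul {c : ℕ → κ} {M S : Set ℕ} (hMM : ∀ a ∈ M, ∀ b ∈ M, a * b ∈ M)
    (hMS : ∀ a ∈ M, ∀ b ∈ S, a * b ∈ S) {L K m x : ℕ} (hm : m ∈ M) (hm0 : 0 < m)
    (h : Good c M S L (m * K) x) : Good c M S L K (m * x) := by
  obtain ⟨h1, h2, h3⟩ := h
  have hK : K ≤ m * K := Nat.le_mul_of_pos_left K hm0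
  refine ⟨hMS m hm x h1, ?_, fun m' hm' hm'K y hy hLy hyK => ?_⟩
  · have : x ≤ m * x := Nat.le_mul_of_pos_left x hm0
    omega
  · have e : m' * (m * x) = m' * m * x := by ring
    rw [e]
    refine h3 (m' * m) (hMM m' hm' m hm) ?_ y hy hLy (hyK.trans hK)
    rw [mul_comm m' m]
    exact Nat.mul_le_mul_left m hm'K

/-- the good ultrafilters -/
def GS (c : ℕ → κ) (M S : Set ℕ) (L : ℕ) : Set (Ultrafilter ℕ+) :=
  {q | ∀ K : ℕ, ∀ᶠ n : ℕ+ in (q : Filter ℕ+), Good c M S L K n}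

theorem GS_closed (c : ℕ → κ) (M S : Set ℕ) (L : ℕ) : IsClosed (GS c M S L) := by
  have e : GS c M S L = ⋂ K : ℕ, {q : Ultrafilter ℕ+ | ∀ᶠ n : ℕ+ in (q : Filter ℕ+),
      Good c M S L K n} := by
    ext q
    simp only [GS, Set.mem_ofPred_eq, Set.mem_iInter]
  rw [e]
  exact isClosed_iInter fun K => isClosed_basic _

theorem GS_mul {c : ℕ → κ} {M S : Set ℕ} {L : ℕ} (hMM : ∀ a ∈ M, ∀ b ∈ M, a * b ∈ M)
    (hMS : ∀ a ∈ M, ∀ b ∈ S, a * b ∈ S) (hSM : S ⊆ M) {q q' : Ultrafilter ℕ+}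
    (hq : q ∈ GS c M S L) (hq' : q' ∈ GS c M S L) : q * q' ∈ GS c M S L := by
  intro K
  rw [Ultrafilter.eventually_mul]
  filter_upwards [hq 0] with m hm
  filter_upwards [hq' ((m : ℕ) * K)] with n hn
  rw [PNat.mul_coe]
  exact Good.mul hMM hMS (hSM hm.1) m.pos hn

theorem GS_nonempty {c : ℕ → κ} {M S : Set ℕ} {L : ℕ} (h : ∀ K, ∃ x, Good c M S L K x) :
    (GS c M S L).Nonempty := by
  classical
  have h' : ∀ K, ∃ x : ℕ+, Good c M S L K x := by
    intro K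
    obtain ⟨x, hx⟩ := h K
    exact ⟨⟨x, lt_of_le_of_lt (Nat.zero_le K) hx.2.1⟩, hx⟩
  choose f hf using h'
  refine ⟨(hyperfilter ℕ).map f, fun K => ?_⟩
  rw [Ultrafilter.coe_map, eventually_map]
  have h1 : ∀ᶠ t in (hyperfilter ℕ : Filter ℕ), K ≤ t :=
    (Nat.hyperfilter_le_atTop) (eventually_ge_atTop _)
  filter_upwards [h1] with t ht
  exact (hf t).mono ht

theorem exists_idem {c : ℕ → κ} {M S : Set ℕ} {L : ℕ} (hMM : ∀ a ∈ M, ∀ b ∈ M, a * b ∈ M)
    (hMS : ∀ a ∈ M, ∀ b ∈ S, a * b ∈ S) (hSM : S ⊆ M) (h : ∀ K, ∃ x, Good c M S L K x) :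
    ∃ p ∈ GS c M S L, p * p = p :=
  exists_idempotent_in_compact_subsemigroup (@Ultrafilter.continuous_mul_left ℕ+ _)
    (GS c M S L) (GS_nonempty h) (GS_closed c M S L).isCompact
    (fun _ hq _ hq' => GS_mul hMM hMS hSM hq hq')

/-- the pattern `x, y, x + y, x y` with `x, y ∈ S` -/
theorem pairs [Finite κ] {c : ℕ → κ} {M S : Set ℕ} {L : ℕ} (h1M : 1 ∈ M)
    (hMM : ∀ a ∈ M, ∀ b ∈ M, a * b ∈ M)
    (hMS : ∀ a ∈ M, ∀ b ∈ S, a * b ∈ S) (hSM : S ⊆ M) (h : ∀ K, ∃ x, Good c M S L K x)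
    (K : ℕ) : ∃ x y : ℕ, x ∈ S ∧ y ∈ S ∧ K < x ∧ x < y ∧ c y = c x ∧ c (x + y) = c x ∧
      c (x * y) = c x := by
  obtain ⟨p, hpK, hpp⟩ := exists_idem hMM hMS hSM h
  obtain ⟨col, hcol⟩ := ultra_const p (fun n : ℕ+ => c n)
  have h2 := (idem_eventually_mul hpp _).1 hcol
  obtain ⟨x, hx1, hx2, hx3⟩ := (hcol.and (h2.and (hpK (K + L)))).exists
  obtain ⟨y, hy1, hy2, hy3⟩ := (hcol.and (hx2.and (hpK (x : ℕ)))).exists
  have hKx : K + L < (x : ℕ) := hx3.2.1
  refine ⟨x, y, hx3.1, hy3.1, by omega, hy3.2.1, hy1.trans hx1.symm, ?_, ?_⟩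
  · have := hy3.2.2 1 h1M x.pos x hx3.1 (by omega) le_rfl
    rw [one_mul] at this
    rw [add_comm]
    exact this (hy1.trans hx1.symm)
  · rw [hx1, ← PNat.mul_coe]
    exact hy2

/-- the infinite system, for multiples of `q` -/
theorem seq [Finite κ] {c : ℕ → κ} {q L : ℕ}
    (h : ∀ K, ∃ x, Good c {m | 0 < m} {n | 0 < n ∧ q ∣ n} L K x) (K : ℕ) :
    ∃ x : ℕ → ℕ, StrictMono x ∧ K < x 0 ∧ (∀ i, q ∣ x i) ∧ ∃ col : κ,
      ∀ 𝓕 : Finset (Finset ℕ), 𝓕.Nonempty →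
      (∀ F ∈ 𝓕, F.Nonempty) → (∀ F ∈ 𝓕, ∀ H ∈ 𝓕, F.max = H.max → F = H) →
      c (∑ F ∈ 𝓕, ∏ i ∈ F, x i) = col := by
  classical
  obtain ⟨p, hpK, hpp⟩ := exists_idem (c := c) (M := {m | 0 < m}) (S := {n | 0 < n ∧ q ∣ n})
    (L := L) (fun a ha b hb => Nat.mul_pos ha hb)
    (fun a ha b hb => ⟨Nat.mul_pos ha hb.1, Dvd.dvd.mul_left hb.2 a⟩) (fun a ha => ha.1) h
  obtain ⟨col, hcol⟩ := ultra_const p (fun n : ℕ+ => c n)
  have hqn : ∀ᶠ n : ℕ+ in (p : Filter ℕ+), q ∣ (n : ℕ) := by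
    filter_upwards [hpK 0] with n hn
    exact hn.1.2
  have hlarge : ∀ K : ℕ+, ∀ᶠ n in (p : Filter ℕ+), K < n := by
    intro K
    filter_upwards [hpK (K : ℕ)] with n hn
    exact PNat.coe_lt_coe _ _ |>.1 hn.2.1
  obtain ⟨x, hx1, hx2, hx3⟩ := Gen.exists_seq (G := fun n : ℕ+ => c n = col ∧ q ∣ (n : ℕ))
    (G' := fun n : ℕ+ => c n = col ∧ q ∣ (n : ℕ) ∧ L < n) hpp hlarge
    (fun a ha => by
      filter_upwards [ha, hlarge (L.succPNat)] with n hn hn'
      refine ⟨hn.1, hn.2, ?_⟩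
      have h1 : L < (n : ℕ) := by
        have := (PNat.coe_lt_coe _ _).2 hn'
        rw [Nat.succPNat_coe] at this
        omega
      have h2 : (n : ℕ) ≤ ((a * n : ℕ+) : ℕ) := by
        rw [PNat.mul_coe]; exact Nat.le_mul_of_pos_left _ a.pos
      omega)
    (fun a v ha hv => by
      filter_upwards [ha, hpK ((a : ℕ) + v)] with n hn1 hn2
      have h1 : c ((a : ℕ) * n) = c v := by
        have := hn1.1
        rw [PNat.mul_coe] at this
        exact this.trans hv.1.symm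
      have h2 := hn2.2.2 a a.pos (by omega) v ⟨v.pos, hv.2.1⟩ hv.2.2 (by omega) h1
      refine ⟨?_, ?_, ?_⟩
      · rw [PNat.add_coe, PNat.mul_coe, h2]
        exact hv.1
      · rw [PNat.add_coe, PNat.mul_coe]
        exact dvd_add (Dvd.dvd.mul_left hn2.1.2 _) hv.2.1
      · rw [PNat.add_coe]
        have := hv.2.2
        omega) (hcol.and hqn) K.succPNat
  refine ⟨fun i => (x i : ℕ), fun i j hij => hx1 hij, ?_, fun i => ?_, col, ?_⟩
  · have h1 : ((K.succPNat : ℕ+) : ℕ) < x 0 := hx2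
    rw [Nat.succPNat_coe] at h1
    show K < (x 0 : ℕ)
    omega
  · obtain ⟨v, hv1, hv2⟩ := hx3 {{i}} (by simp) (by simp) (by simp)
    have : (v : ℕ) = (x i : ℕ) := by simpa using hv1
    show q ∣ (x i : ℕ)
    rw [← this]
    exact hv2.2.1
  · intro 𝓕 h1 h2 h3
    obtain ⟨v, hv1, hv2⟩ := hx3 𝓕 h1 h2 h3
    rw [← hv1]
    exact hv2.1

/-- few colour changes and Toeplitz information on the multiples of `q` leave good numbers at
every level -/
theorem good_of_few {D μ : Type*} {b : ℕ → D} {h : ℕ → μ} {q : ℕ} (hq : 0 < q)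
    (hb : ∀ n : ℕ, 0 < n → ∃ M : ℕ, 0 < M ∧ ∀ j : ℕ, b (n + M * j) = b n)
    (hh : ∀ ε : ℝ, 0 < ε → ∀ N₀ : ℕ, ∃ N : ℕ, N₀ ≤ N ∧
      ({n : ℕ | n < N ∧ h n ≠ h (n + 1)}.ncard : ℝ) ≤ ε * N) (K : ℕ) :
    ∃ x, Good (fun n => (b (n / q), h (n / q))) {m | 0 < m} {n | 0 < n ∧ q ∣ n} 0 K x := by
  classical
  choose! M hM hbM using hb
  set Q : ℕ := ∏ y ∈ Finset.Icc 1 K, M y with hQ
  have hQ0 : 0 < Q := Finset.prod_pos fun y hy => hM y (Finset.mem_Icc.1 hy).1
  have hbQ : ∀ y, 0 < y → y ≤ K → ∀ j, b (y + Q * j) = b y := by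
    intro y hy hyK j
    obtain ⟨w, hw⟩ : M y ∣ Q := Finset.dvd_prod_of_mem M (Finset.mem_Icc.2 ⟨hy, hyK⟩)
    rw [hw, mul_assoc]
    exact hbM y hy _
  -- it is enough to find `t` with `K < t` and no change on `[m Q t, m Q t + K]` for `m ≤ K`
  suffices hs : ∃ t : ℕ, K < t ∧ ∀ m, 0 < m → m ≤ K → ∀ j, j < K →
      h (m * (Q * t) + j) = h (m * (Q * t) + j + 1) by
    obtain ⟨t, ht, h1⟩ := hs
    have hx : t ≤ q * (Q * t) := by
      have e1 : t ≤ Q * t := Nat.le_mul_of_pos_left t hQ0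
      exact e1.trans (Nat.le_mul_of_pos_left _ hq)
    refine ⟨q * (Q * t), ⟨by omega, Dvd.intro _ rfl⟩, by omega, ?_⟩
    rintro m hm hmK y ⟨hy0, z, rfl⟩ _ hyK hcy
    have hz : z ≤ K := by
      have : z ≤ q * z := Nat.le_mul_of_pos_left z hq
      omega
    have hz0 : 0 < z := Nat.pos_of_mul_pos_left hy0
    have h2 : ∀ j, j ≤ K → h (m * (Q * t) + j) = h (m * (Q * t)) := by
      intro j
      induction j with
      | zero => intro _; rfl
      | succ j ih =>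
        intro hj
        rw [← ih (by omega), h1 m hm hmK j (by omega)]
        rfl
    have e1 : m * (q * (Q * t)) + q * z = q * (m * (Q * t) + z) := by ring
    have e2 : m * (q * (Q * t)) = q * (m * (Q * t)) := by ring
    have e3 : m * (Q * t) + z = z + Q * (m * t) := by ring
    simp only [Prod.mk.injEq] at hcy ⊢
    rw [e1, Nat.mul_div_cancel_left _ hq, Nat.mul_div_cancel_left _ hq]
    rw [e2, Nat.mul_div_cancel_left _ hq, Nat.mul_div_cancel_left _ hq] at hcy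
    refine ⟨?_, ?_⟩
    · rw [e3]
      exact hbQ z hz0 hz _
    · rw [h2 z hz]
      exact hcy.2
  rcases Nat.eq_zero_or_pos K with rfl | hK
  · exact ⟨1, one_pos, fun m hm hm0 => absurd hm (by omega)⟩
  -- count
  obtain ⟨N, hN, hcard⟩ := hh (1 / (4 * K ^ 3 * Q)) (by positivity) (2 * K * Q * (K + 2) + 1)
  set E : Finset ℕ := (Finset.range N).filter fun n => h n ≠ h (n + 1) with hE
  have hEcard : {n : ℕ | n < N ∧ h n ≠ h (n + 1)}.ncard = E.card := by
    rw [← Set.ncard_coe_finset]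
    congr 1
    ext n
    simp [hE]
  rw [hEcard] at hcard
  by_contra hcon
  push Not at hcon
  have hKQ : 0 < K * Q := Nat.mul_pos hK hQ0
  have hKN : K ≤ N := by nlinarith [Nat.le_mul_of_pos_left K hKQ, Nat.le_mul_of_pos_right K hQ0]
  set T := (N - K) / (K * Q) with hT
  have hTN : (K * Q) * T + K ≤ N := by
    have h1 : (K * Q) * T ≤ N - K := Nat.mul_div_le (N - K) (K * Q)
    omega
  have hTlow : (N : ℝ) / (K * Q) - 2 ≤ T := by
    have h1 : N - K < (K * Q) * (T + 1) := by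
      rw [hT]; exact Nat.lt_mul_div_succ (N - K) hKQ
    have h2 : N < (K * Q) * (T + 2) := by
      have h3 : K ≤ K * Q := Nat.le_mul_of_pos_right K hQ0
      have h4 : (K * Q) * (T + 2) = (K * Q) * (T + 1) + K * Q := by ring
      omega
    have h3 : (N : ℝ) < (K * Q) * (T + 2) := by exact_mod_cast h2
    have hK' : (0 : ℝ) < K * Q := by exact_mod_cast hKQ
    rw [sub_le_iff_le_add, div_le_iff₀ hK']
    nlinarith
  have key : ∀ t ∈ Finset.Ioc K T, ∃ w ∈ Finset.range (K + 1) ×ˢ Finset.range K ×ˢ E,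
      0 < w.1 ∧ w.1 * (Q * t) + w.2.1 = w.2.2 := by
    intro t ht
    rw [Finset.mem_Ioc] at ht
    obtain ⟨m, hm, hmK, j, hj, hne⟩ := hcon t ht.1
    refine ⟨(m, j, m * (Q * t) + j), ?_, hm, rfl⟩
    have hlt : m * (Q * t) + j < N := by
      have h1 : m * (Q * t) ≤ K * (Q * T) :=
        Nat.mul_le_mul hmK (Nat.mul_le_mul_left Q ht.2)
      have h2 : K * (Q * T) = (K * Q) * T := by ring
      omega
    simp only [Finset.mem_product, Finset.mem_range]
    refine ⟨by omega, hj, ?_⟩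
    rw [hE, Finset.mem_filter, Finset.mem_range]
    exact ⟨hlt, hne⟩
  choose! f hf1 hf2 using key
  have hinj : Set.InjOn f (Finset.Ioc K T : Set ℕ) := by
    intro t ht t' ht' he
    have h1 := hf2 t ht
    have h2 := hf2 t' ht'
    rw [he] at h1
    have h3 : (f t').1 * (Q * t) = (f t').1 * (Q * t') := by omega
    exact Nat.eq_of_mul_eq_mul_left hQ0 (Nat.eq_of_mul_eq_mul_left h2.1 h3)
  have hle : (Finset.Ioc K T).card ≤ (Finset.range (K + 1) ×ˢ Finset.range K ×ˢ E).card :=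
    Finset.card_le_card_of_injOn f hf1 hinj
  rw [Nat.card_Ioc, Finset.card_product, Finset.card_product, Finset.card_range,
    Finset.card_range] at hle
  have hle' : (T : ℝ) - K ≤ (K + 1) * (K * E.card) := by
    have h1 : T ≤ (K + 1) * (K * E.card) + K := by omega
    have h2 : (T : ℝ) ≤ (K + 1) * (K * E.card) + K := by exact_mod_cast h1
    linarith
  have hK' : (1 : ℝ) ≤ K := by exact_mod_cast hK
  have hQ' : (0 : ℝ) < Q := by exact_mod_cast hQ0
  have hN' : 2 * (K : ℝ) * Q * (K + 2) + 1 ≤ N := by exact_mod_cast hN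
  have h1 : ((K : ℝ) + 1) * (K * E.card) ≤ 1 / 2 * (N / (K * Q)) := by
    calc ((K : ℝ) + 1) * (K * E.card) ≤ (K + K) * (K * (1 / (4 * K ^ 3 * Q) * N)) := by gcongr
      _ = 1 / 2 * (N / (K * Q)) := by
        have : (K : ℝ) ≠ 0 := by positivity
        field_simp
        ring
  have h2 : (N : ℝ) / (K * Q) ≤ 2 * (K + 2) := by linarith
  rw [div_le_iff₀ (by positivity)] at h2
  nlinarith

end

end Pool.Agent.TH832.SP
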